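import Pool.Agent.X228.MTL.Final

/-!
# MP_db33a0_lc: uncountably many axiomatic extensions of FLew have deductive interpolation

For `θ ≥ 1` let `K_θ` be the class of `FL_ew`-chains coding chains with two automorphisms `s`, `t`
above the identity whose growth rates compare like `1` and `θ`.  The logic of `K_θ` is an
axiomatic extension of `FL_ew` with deductive interpolation, and different `θ` give different
logics.
-/

set_option autoImplicit false

namespace Pool.Agent.Results.MP_db33a0_lc.UncountablyMany

open Pool.Agent.X228.MTL

/-- The set of axiomatic extensions of `FL_ew` with the deductive interpolation property is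
uncountable. -/
theorem result : ¬ Set.Countable {L : Set Fm → Fm → Prop | IsAxExt FLewConseq L ∧ DIP L} := by
  apply final
  · intro M Γ φ h v hv
    exact h M.Al v hv
  · intro Γ φ h A _ v hv
    exact h A v hv

end Pool.Agent.Results.MP_db33a0_lc.UncountablyMany
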